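import Pool.Agent.Helper45_PGF.Eqs
import Pool.Agent.Helper45_PGE.RatFun

/-!
# Complete intersections which are even in two variables: algebra
-/

set_option autoImplicit false

universe u v

namespace Pool.Agent.PGF.H65

section

variable {k : Type u} [Field k]

theorem isWH_aeval {σ τ : Type} (w : σ → ℕ) (w' : τ → ℕ) (φ : σ → MvPolynomial τ k)
    (hφ : ∀ i, (φ i).IsWeightedHomogeneous w' (w i)) (p : MvPolynomial σ k) (D : ℕ)
    (hp : p.IsWeightedHomogeneous w D) :
    (MvPolynomial.aeval φ p).IsWeightedHomogeneous w' D := by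
  classical
  rw [MvPolynomial.aeval_def, MvPolynomial.eval₂_eq]
  refine MvPolynomial.IsWeightedHomogeneous.sum _ _ _ fun μ hμ => ?_
  have hD : Finsupp.weight w μ = D := hp (MvPolynomial.mem_support_iff.1 hμ)
  have h1 : (∏ i ∈ μ.support, φ i ^ μ i).IsWeightedHomogeneous w' (∑ i ∈ μ.support, μ i • w i) :=
    MvPolynomial.IsWeightedHomogeneous.prod _ _ _ fun i _ => (hφ i).pow (μ i)
  have h2 : ∑ i ∈ μ.support, μ i • w i = D := by
    rw [← hD, Finsupp.weight_apply]
    rfl
  rw [h2] at h1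
  rw [MvPolynomial.algebraMap_eq]
  exact h1.C_mul _

/-- The weights `(2, 2, 1, ..., 1)`. -/
def w2 (N : ℕ) (l : Fin (N + 2)) : ℕ := if (l : ℕ) < 2 then 2 else 1

theorem w2_ne (N : ℕ) (l : Fin (N + 2)) : w2 N l ≠ 0 := by
  unfold w2
  split_ifs <;> omega

/-- The inclusion of the first two indices. -/
def i0 (N : ℕ) (i : Fin 2) : Fin (N + 2) := ⟨i, by have := i.2; omega⟩

theorem w2_i0 (N : ℕ) (i : Fin 2) : w2 N (i0 N i) = 2 := by
  unfold w2 i0
  rw [if_pos]
  exact i.2

theorem sum_w2 (N : ℕ) : ∑ l, w2 N l = N + 4 := by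
  rw [Fin.sum_univ_succ, Fin.sum_univ_succ]
  have h1 : ∀ i : Fin N, w2 N i.succ.succ = 1 := by
    intro i
    unfold w2
    rw [if_neg]
    show ¬ ((i.succ.succ : Fin (N + 2)) : ℕ) < 2
    rw [Fin.val_succ, Fin.val_succ]
    omega
  rw [Finset.sum_congr rfl fun i _ => h1 i]
  have h2 : w2 N 0 = 2 := rfl
  have h3 : w2 N (Fin.succ 0) = 2 := by
    unfold w2
    rw [if_pos]
    rw [Fin.val_succ]
    show (0 : ℕ) + 1 < 2
    omega
  rw [h2, h3, Finset.sum_const, Finset.card_univ, Fintype.card_fin, smul_eq_mul, mul_one]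
  omega

theorem gcd_w2 (N : ℕ) (hN : 1 ≤ N) : Finset.univ.gcd (w2 N) = 1 := by
  have h1 : Finset.univ.gcd (w2 N) ∣ w2 N ⟨2, by omega⟩ := Finset.gcd_dvd (Finset.mem_univ _)
  have h2 : w2 N ⟨2, by omega⟩ = 1 := by
    unfold w2
    rw [if_neg]
    show ¬ (2 : ℕ) < 2
    omega
  rw [h2] at h1
  exact Nat.dvd_one.1 h1

/-- The substitution `x_l = X_l ^ (w2 l)`, `y_i = X_i`. -/
noncomputable def Psi (k : Type u) [Field k] (N : ℕ) :
    MvPolynomial (Fin (N + 2) ⊕ Fin 2) k →ₐ[k] MvPolynomial (Fin (N + 2) ⊕ Fin 0) k :=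
  MvPolynomial.aeval (Sum.elim (fun l => MvPolynomial.X (Sum.inl l) ^ w2 N l)
    fun i => MvPolynomial.X (Sum.inl (i0 N i)))

theorem Psi_inl (N : ℕ) (l : Fin (N + 2)) :
    Psi k N (MvPolynomial.X (Sum.inl l)) = MvPolynomial.X (Sum.inl l) ^ w2 N l := by
  rw [Psi, MvPolynomial.aeval_X]
  rfl

theorem Psi_inr (N : ℕ) (i : Fin 2) :
    Psi k N (MvPolynomial.X (Sum.inr i)) = MvPolynomial.X (Sum.inl (i0 N i)) := by
  rw [Psi, MvPolynomial.aeval_X]
  rfl

/-- The section: `X_l` is `y_l` for `l = 0, 1` and `x_l` otherwise. -/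
def rho (N : ℕ) : Fin (N + 2) ⊕ Fin 0 → Fin (N + 2) ⊕ Fin 2 :=
  Sum.elim (fun l => if h : (l : ℕ) < 2 then Sum.inr ⟨l, h⟩ else Sum.inl l) fun i => i.elim0

theorem rho_i0 (N : ℕ) (i : Fin 2) : rho N (Sum.inl (i0 N i)) = Sum.inr i := by
  have h : ((i0 N i : Fin (N + 2)) : ℕ) < 2 := i.2
  have h1 : rho N (Sum.inl (i0 N i)) = if h : ((i0 N i : Fin (N + 2)) : ℕ) < 2 then
      Sum.inr ⟨((i0 N i : Fin (N + 2)) : ℕ), h⟩ else Sum.inl (i0 N i) := rfl
  rw [h1, dif_pos h]
  exact congrArg Sum.inr (Fin.ext rfl)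

theorem rho_lt (N : ℕ) (l : Fin (N + 2)) (h : (l : ℕ) < 2) :
    rho N (Sum.inl l) = Sum.inr ⟨(l : ℕ), h⟩ := by
  have h1 : rho N (Sum.inl l) = if h : (l : ℕ) < 2 then
      Sum.inr ⟨(l : ℕ), h⟩ else Sum.inl l := rfl
  rw [h1, dif_pos h]

theorem rho_ge (N : ℕ) (l : Fin (N + 2)) (h : ¬ (l : ℕ) < 2) :
    rho N (Sum.inl l) = Sum.inl l := by
  have h1 : rho N (Sum.inl l) = if h : (l : ℕ) < 2 then
      Sum.inr ⟨(l : ℕ), h⟩ else Sum.inl l := rfl
  rw [h1, dif_neg h]

theorem Psi_rho (N : ℕ) (p : MvPolynomial (Fin (N + 2) ⊕ Fin 0) k) :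
    Psi k N (MvPolynomial.rename (rho N) p) = p := by
  have h : (Psi k N).comp (MvPolynomial.rename (rho N)) =
      AlgHom.id k (MvPolynomial (Fin (N + 2) ⊕ Fin 0) k) := by
    refine MvPolynomial.algHom_ext fun s => ?_
    rcases s with l | i
    · rw [AlgHom.comp_apply, MvPolynomial.rename_X, AlgHom.id_apply]
      show Psi k N (MvPolynomial.X (if h : (l : ℕ) < 2 then Sum.inr ⟨l, h⟩ else Sum.inl l)) = _
      by_cases hl : (l : ℕ) < 2
      · rw [dif_pos hl, Psi_inr]
        rfl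
      · rw [dif_neg hl, Psi_inl]
        have : w2 N l = 1 := by
          unfold w2
          rw [if_neg hl]
        rw [this, pow_one]
    · exact i.elim0
  exact DFunLike.congr_fun h p

theorem Psi_surj (N : ℕ) : Function.Surjective (Psi k N) := fun p => ⟨_, Psi_rho N p⟩

/-- A homogeneous polynomial with even exponents in the first two variables is obtained by the
substitution. -/
theorem exists_even (N D : ℕ) (G : MvPolynomial (Fin (N + 2)) k) (hG : G.IsHomogeneous D)
    (hev : ∀ μ ∈ G.support, Even (μ 0) ∧ Even (μ 1)) :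
    ∃ F : MvPolynomial (Fin (N + 2)) k, F.IsWeightedHomogeneous (w2 N) D ∧
      MvPolynomial.aeval (fun l => (MvPolynomial.X l : MvPolynomial (Fin (N + 2)) k) ^ w2 N l) F =
        G := by
  classical
  let hf : (Fin (N + 2) →₀ ℕ) → Fin (N + 2) →₀ ℕ := fun μ =>
    Finsupp.equivFunOnFinite.symm fun l => μ l / w2 N l
  have hdv : ∀ μ ∈ G.support, ∀ l, w2 N l * (μ l / w2 N l) = μ l := by
    intro μ hμ l
    refine Nat.mul_div_cancel' ?_
    obtain ⟨h0, h1⟩ := hev μ hμ
    by_cases hl : (l : ℕ) < 2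
    · have hw : w2 N l = 2 := by
        unfold w2
        rw [if_pos hl]
      rw [hw]
      rcases Nat.lt_or_ge (l : ℕ) 1 with h | h
      · have : l = 0 := Fin.ext (by show (l : ℕ) = 0; omega)
        rw [this]
        exact h0.two_dvd
      · have : l = 1 := Fin.ext (by
          show (l : ℕ) = ((1 : Fin (N + 2)) : ℕ)
          rw [Fin.val_one]
          omega)
        rw [this]
        exact h1.two_dvd
    · have hw : w2 N l = 1 := by
        unfold w2
        rw [if_neg hl]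
      rw [hw]
      exact one_dvd _
  refine ⟨∑ μ ∈ G.support, MvPolynomial.monomial (hf μ) (G.coeff μ), ?_, ?_⟩
  · refine MvPolynomial.IsWeightedHomogeneous.sum _ _ _ fun μ hμ => ?_
    refine MvPolynomial.isWeightedHomogeneous_monomial _ _ _ ?_
    have hD : Finsupp.weight 1 μ = D := hG (MvPolynomial.mem_support_iff.1 hμ)
    rw [← hD, Finsupp.weight_apply, Finsupp.weight_apply, Finsupp.sum_fintype _ _ (by simp),
      Finsupp.sum_fintype _ _ (by simp)]
    refine Finset.sum_congr rfl fun l _ => ?_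
    show (μ l / w2 N l) * w2 N l = μ l * 1
    rw [mul_one, mul_comm]
    exact hdv μ hμ l
  · rw [map_sum]
    conv_rhs => rw [G.as_sum]
    refine Finset.sum_congr rfl fun μ hμ => ?_
    rw [MvPolynomial.aeval_monomial, MvPolynomial.algebraMap_eq, MvPolynomial.monomial_eq]
    congr 1
    rw [Finsupp.prod_fintype _ _ (by simp), Finsupp.prod_fintype _ _ (by simp)]
    refine Finset.prod_congr rfl fun l _ => ?_
    show (MvPolynomial.X l ^ w2 N l) ^ (μ l / w2 N l) = MvPolynomial.X l ^ μ l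
    rw [← pow_mul, hdv μ hμ l]

/-- The two ideals. -/
theorem tower_comap {s : ℕ} (N : ℕ) (G F : Fin s → MvPolynomial (Fin (N + 2)) k)
    (hF : ∀ j, MvPolynomial.aeval
      (fun l => (MvPolynomial.X l : MvPolynomial (Fin (N + 2)) k) ^ w2 N l) (F j) = G j)
    (m : Fin 0 → ℕ) (g : Fin 0 → MvPolynomial (Fin (N + 2)) k) :
    towerIdeal ∅ (fun _ : Fin 2 => 2) (fun i => MvPolynomial.X (i0 N i)) F =
      (towerIdeal ∅ m g G).comap (Psi k N) := by
  have hFG : ∀ j, Psi k N (MvPolynomial.rename (Sum.inl : Fin (N + 2) → Fin (N + 2) ⊕ Fin 2)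
      (F j)) = MvPolynomial.rename (Sum.inl : Fin (N + 2) → Fin (N + 2) ⊕ Fin 0) (G j) := by
    intro j
    rw [← hF j]
    have h : (Psi k N).comp (MvPolynomial.rename Sum.inl) =
        (MvPolynomial.rename (Sum.inl : Fin (N + 2) → Fin (N + 2) ⊕ Fin 0)).comp
          (MvPolynomial.aeval
            (fun l => (MvPolynomial.X l : MvPolynomial (Fin (N + 2)) k) ^ w2 N l)) := by
      refine MvPolynomial.algHom_ext fun l => ?_
      rw [AlgHom.comp_apply, AlgHom.comp_apply, MvPolynomial.rename_X, MvPolynomial.aeval_X,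
        Psi_inl, map_pow, MvPolynomial.rename_X]
    exact DFunLike.congr_fun h (F j)
  have hinr : ∀ i : Fin 2, (MvPolynomial.X (Sum.inr i) ^ 2 -
      MvPolynomial.X (Sum.inl (i0 N i)) : MvPolynomial (Fin (N + 2) ⊕ Fin 2) k) ∈
      towerIdeal ∅ (fun _ : Fin 2 => 2) (fun i => MvPolynomial.X (i0 N i)) F := by
    intro i
    refine Ideal.subset_span (Or.inr ⟨i, ?_⟩)
    show MvPolynomial.X (Sum.inr i) ^ 2 -
      MvPolynomial.rename (Sum.inl : Fin (N + 2) → Fin (N + 2) ⊕ Fin 2)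
        (MvPolynomial.X (i0 N i)) = _
    rw [MvPolynomial.rename_X]
  refine le_antisymm ?_ ?_
  · refine Ideal.span_le.2 ?_
    rintro p ((⟨q, hq, -⟩ | ⟨j, rfl⟩) | ⟨i, rfl⟩)
    · exact absurd hq (Set.notMem_empty _)
    · show Psi k N _ ∈ towerIdeal ∅ m g G
      rw [hFG j]
      exact Ideal.subset_span (Or.inl (Or.inr ⟨j, rfl⟩))
    · show Psi k N (MvPolynomial.X (Sum.inr i) ^ 2 - MvPolynomial.rename Sum.inl
        (MvPolynomial.X (i0 N i))) ∈ towerIdeal ∅ m g G
      rw [MvPolynomial.rename_X, map_sub, map_pow, Psi_inr, Psi_inl, w2_i0, sub_self]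
      exact Ideal.zero_mem _
  · have key : ∀ i : Fin 2, Ideal.Quotient.mkₐ k (towerIdeal ∅ (fun _ : Fin 2 => 2)
        (fun i => MvPolynomial.X (i0 N i)) F) (MvPolynomial.X (Sum.inr i) ^ 2) =
        Ideal.Quotient.mkₐ k (towerIdeal ∅ (fun _ : Fin 2 => 2)
          (fun i => MvPolynomial.X (i0 N i)) F) (MvPolynomial.X (Sum.inl (i0 N i))) := by
      intro i
      exact Ideal.Quotient.eq.2 (hinr i)
    have hmod : ∀ p : MvPolynomial (Fin (N + 2) ⊕ Fin 2) k,
        Ideal.Quotient.mk (towerIdeal ∅ (fun _ : Fin 2 => 2)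
          (fun i => MvPolynomial.X (i0 N i)) F) p =
        Ideal.Quotient.mk (towerIdeal ∅ (fun _ : Fin 2 => 2)
          (fun i => MvPolynomial.X (i0 N i)) F) (MvPolynomial.rename (rho N) (Psi k N p)) := by
      intro p
      have h : (Ideal.Quotient.mkₐ k (towerIdeal ∅ (fun _ : Fin 2 => 2)
          (fun i => MvPolynomial.X (i0 N i)) F)) =
          ((Ideal.Quotient.mkₐ k (towerIdeal ∅ (fun _ : Fin 2 => 2)
            (fun i => MvPolynomial.X (i0 N i)) F)).comp (MvPolynomial.rename (rho N))).comp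
            (Psi k N) := by
        refine MvPolynomial.algHom_ext fun t => ?_
        rcases t with l | i
        · by_cases hl : (l : ℕ) < 2
          · have hw : w2 N l = 2 := by
              unfold w2
              rw [if_pos hl]
            have e1 : MvPolynomial.rename (rho N) (Psi k N (MvPolynomial.X (Sum.inl l))) =
                (MvPolynomial.X (Sum.inr ⟨(l : ℕ), hl⟩) :
                  MvPolynomial (Fin (N + 2) ⊕ Fin 2) k) ^ 2 := by
              rw [Psi_inl, map_pow, MvPolynomial.rename_X, rho_lt N l hl, hw]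
            have hi : i0 N ⟨(l : ℕ), hl⟩ = l := Fin.ext rfl
            have hk := key ⟨(l : ℕ), hl⟩
            rw [hi, ← e1] at hk
            exact hk.symm
          · have hw : w2 N l = 1 := by
              unfold w2
              rw [if_neg hl]
            have e1 : MvPolynomial.rename (rho N) (Psi k N (MvPolynomial.X (Sum.inl l))) =
                (MvPolynomial.X (Sum.inl l) : MvPolynomial (Fin (N + 2) ⊕ Fin 2) k) := by
              rw [Psi_inl, map_pow, MvPolynomial.rename_X, rho_ge N l hl, hw, pow_one]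
            exact (congrArg (Ideal.Quotient.mkₐ k (towerIdeal ∅ (fun _ : Fin 2 => 2)
              (fun i => MvPolynomial.X (i0 N i)) F)) e1).symm
        · have e1 : MvPolynomial.rename (rho N) (Psi k N (MvPolynomial.X (Sum.inr i))) =
              (MvPolynomial.X (Sum.inr i) : MvPolynomial (Fin (N + 2) ⊕ Fin 2) k) := by
            rw [Psi_inr, MvPolynomial.rename_X, rho_i0]
          exact (congrArg (Ideal.Quotient.mkₐ k (towerIdeal ∅ (fun _ : Fin 2 => 2)
            (fun i => MvPolynomial.X (i0 N i)) F)) e1).symm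
      exact DFunLike.congr_fun h p
    intro p hp
    have hp' : Psi k N p ∈ towerIdeal ∅ m g G := hp
    have hs : (towerIdeal ∅ m g G).map (MvPolynomial.rename (rho N) :
        MvPolynomial (Fin (N + 2) ⊕ Fin 0) k →ₐ[k] MvPolynomial (Fin (N + 2) ⊕ Fin 2) k) ≤
        towerIdeal ∅ (fun _ : Fin 2 => 2) (fun i => MvPolynomial.X (i0 N i)) F := by
      rw [towerIdeal, Ideal.map_span, Ideal.span_le]
      rintro _ ⟨q, ((⟨q', hq', -⟩ | ⟨j, rfl⟩) | ⟨i, -⟩), rfl⟩
      · exact absurd hq' (Set.notMem_empty _)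
      · show MvPolynomial.rename (rho N) (MvPolynomial.rename Sum.inl (G j)) ∈ _
        rw [← hFG j]
        have h1 := hmod (MvPolynomial.rename Sum.inl (F j))
        have h2 : MvPolynomial.rename (Sum.inl : Fin (N + 2) → Fin (N + 2) ⊕ Fin 2) (F j) ∈
            towerIdeal ∅ (fun _ : Fin 2 => 2) (fun i => MvPolynomial.X (i0 N i)) F :=
          Ideal.subset_span (Or.inl (Or.inr ⟨j, rfl⟩))
        rw [Ideal.Quotient.eq_zero_iff_mem.2 h2] at h1
        exact Ideal.Quotient.eq_zero_iff_mem.1 h1.symm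
      · exact i.elim0
    have h3 := hs (Ideal.mem_map_of_mem _ hp')
    have h4 := hmod p
    rw [Ideal.Quotient.eq_zero_iff_mem.2 h3] at h4
    exact Ideal.Quotient.eq_zero_iff_mem.1 h4

end

end Pool.Agent.PGF.H65
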