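import Pool.Agent.Helper45_PGF.CorB
import Pool.Agent.Helper45_PGF.Target
import Pool.Agent.Helper65_PGF.EvenAlg

/-!
# Complete intersections which are even in two variables
-/

set_option autoImplicit false

open CategoryTheory AlgebraicGeometry

universe u v

namespace Pool.Agent.PGF.H65

theorem eval_Psi {k : Type u} {K : Type v} [Field k] [Field K] (c : k →+* K) (N : ℕ)
    (x : Fin (N + 2) → K) (y : Fin 0 → K) (p : MvPolynomial (Fin (N + 2) ⊕ Fin 2) k) :
    (Psi k N p).eval₂ c (Sum.elim x y) =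
      p.eval₂ c (Sum.elim (fun l => x l ^ w2 N l) fun i => x (i0 N i)) := by
  have h : (MvPolynomial.eval₂Hom c (Sum.elim x y)).comp (Psi k N : _ →+* _) =
      MvPolynomial.eval₂Hom c (Sum.elim (fun l => x l ^ w2 N l) fun i => x (i0 N i)) := by
    refine MvPolynomial.ringHom_ext (fun r => ?_) fun t => ?_
    · show (Psi k N (MvPolynomial.C r)).eval₂ c (Sum.elim x y) =
        (MvPolynomial.C r).eval₂ c _
      rw [← MvPolynomial.algebraMap_eq, AlgHom.commutes, MvPolynomial.algebraMap_eq,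
        MvPolynomial.algebraMap_eq, MvPolynomial.eval₂_C, MvPolynomial.eval₂_C]
    · rcases t with l | i
      · show (Psi k N (MvPolynomial.X (Sum.inl l))).eval₂ c (Sum.elim x y) =
          (MvPolynomial.X (Sum.inl l)).eval₂ c _
        rw [Psi_inl, MvPolynomial.eval₂_pow, MvPolynomial.eval₂_X, MvPolynomial.eval₂_X]
        rfl
      · show (Psi k N (MvPolynomial.X (Sum.inr i))).eval₂ c (Sum.elim x y) =
          (MvPolynomial.X (Sum.inr i)).eval₂ c _
        rw [Psi_inr, MvPolynomial.eval₂_X, MvPolynomial.eval₂_X]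
        rfl
  exact DFunLike.congr_fun h p

theorem eval_rho {k : Type u} {K : Type v} [Field k] [Field K] (c : k →+* K) (N : ℕ)
    (x : Fin (N + 2) → K) (y : Fin 0 → K) (p : MvPolynomial (Fin (N + 2) ⊕ Fin 0) k) :
    (MvPolynomial.rename (rho N) p).eval₂ c
      (Sum.elim (fun l => x l ^ w2 N l) fun i => x (i0 N i)) = p.eval₂ c (Sum.elim x y) := by
  rw [← eval_Psi c N x y, Psi_rho]

theorem wh_rho {k : Type u} [Field k] (N : ℕ) (a : Fin 0 → ℕ)
    (p : MvPolynomial (Fin (N + 2) ⊕ Fin 0) k) (D : ℕ)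
    (hp : p.IsWeightedHomogeneous (Sum.elim (fun _ : Fin (N + 2) => 1) a) D) :
    (MvPolynomial.rename (rho N) p).IsWeightedHomogeneous
      (Sum.elim (w2 N) (fun _ : Fin 2 => 1)) D := by
  have e : (MvPolynomial.rename (rho N) : MvPolynomial (Fin (N + 2) ⊕ Fin 0) k →ₐ[k]
      MvPolynomial (Fin (N + 2) ⊕ Fin 2) k) =
      MvPolynomial.aeval fun t => MvPolynomial.X (rho N t) :=
    MvPolynomial.algHom_ext fun t => by rw [MvPolynomial.rename_X, MvPolynomial.aeval_X]
  rw [e]
  refine isWH_aeval (Sum.elim (fun _ : Fin (N + 2) => 1) a) _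
    (fun t => MvPolynomial.X (rho N t)) ?_ p D hp
  intro t
  rcases t with l | i
  · by_cases hl : (l : ℕ) < 2
    · rw [rho_lt N l hl]
      exact MvPolynomial.isWeightedHomogeneous_X k (Sum.elim (w2 N) (fun _ : Fin 2 => 1))
        (Sum.inr ⟨(l : ℕ), hl⟩)
    · rw [rho_ge N l hl]
      have h1 := MvPolynomial.isWeightedHomogeneous_X k
        (Sum.elim (w2 N) (fun _ : Fin 2 => 1)) (Sum.inl l)
      have hw : w2 N l = 1 := by
        unfold w2
        rw [if_neg hl]
      rw [Sum.elim_inl, hw] at h1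
      exact h1
  · exact i.elim0

theorem wh_Psi {k : Type u} [Field k] (N : ℕ) (a : Fin 0 → ℕ)
    (p : MvPolynomial (Fin (N + 2) ⊕ Fin 2) k) (D : ℕ)
    (hp : p.IsWeightedHomogeneous (Sum.elim (w2 N) (fun _ : Fin 2 => 1)) D) :
    (Psi k N p).IsWeightedHomogeneous (Sum.elim (fun _ : Fin (N + 2) => 1) a) D := by
  refine isWH_aeval (Sum.elim (w2 N) (fun _ : Fin 2 => 1)) _ _ ?_ p D hp
  intro t
  rcases t with l | i
  · have h1 := (MvPolynomial.isWeightedHomogeneous_X k
      (Sum.elim (fun _ : Fin (N + 2) => 1) a) (Sum.inl l)).pow (w2 N l)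
    rw [Sum.elim_inl, smul_eq_mul, mul_one] at h1
    exact h1
  · exact MvPolynomial.isWeightedHomogeneous_X k
      (Sum.elim (fun _ : Fin (N + 2) => 1) a) (Sum.inl (i0 N i))

/-- `V`, an irreducible component, in no coordinate hyperplane, of a complete intersection
`G j = 0` in the projective space with `N + 2 ≥ 3` variables, of degrees `d j`,
`∑ d j ≤ N + 2`, whose equations are even in `x 0` and even in `x 1`, dominates no proper
pseudo-geometrically hyperbolic variety of the same dimension. -/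
theorem even_two (k : Type u) [Field k] [IsAlgClosed k] [CharZero k]
    (X : Scheme.{u}) (f : X ⟶ Spec (.of k)) [IsIntegral X] [IsProper f]
    (N s : ℕ) (hN : 1 ≤ N) (d : Fin s → ℕ)
    (G : Fin s → MvPolynomial (Fin (N + 2)) k) (hG : ∀ j, (G j).IsHomogeneous (d j))
    (hev : ∀ j, ∀ μ ∈ (G j).support, Even (μ 0) ∧ Even (μ 1)) (hd : ∑ j, d j ≤ N + 2)
    (K : Type v) [Field K] (θ : X.functionField →+* K) (x : Fin (N + 2) → K)
    (a m : Fin 0 → ℕ) (g : Fin 0 → MvPolynomial (Fin (N + 2)) k) (y : Fin 0 → K)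
    (hV : IsTarget f (fun _ => 1) a m ∅ g G θ x y) : ¬ PGH.IsPGH k f := by
  choose F hFw hFG using fun j => exists_even N (d j) (G j) (hG j) (hev j)
  refine corB k X f (Fin (N + 2)) (Fin 2) (Fin s) (w2 N) (fun _ => 2) (fun _ => 1) d
    (fun i => MvPolynomial.X (i0 N i)) F K θ (fun l => x l ^ w2 N l) (fun i => x (i0 N i))
    (gcd_w2 N hN) (fun _ => le_rfl) ?_ hFw (fun l => pow_ne_zero _ (hV.x_ne l))
    (fun i => hV.x_ne _) ?_ ?_ ?_ ?_
  · intro i
    have h1 := MvPolynomial.isWeightedHomogeneous_X k (w2 N) (i0 N i)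
    rw [w2_i0] at h1
    exact h1
  · have h1 : RingHom.ker (MvPolynomial.eval₂Hom (θ.comp (PGH.constants k f))
        (Sum.elim (fun l => x l ^ w2 N l) fun i => x (i0 N i))) =
        (RingHom.ker (MvPolynomial.eval₂Hom (θ.comp (PGH.constants k f))
          (Sum.elim x y))).comap (Psi k N : _ →+* _) := by
      refine Ideal.ext fun p => ?_
      rw [Ideal.mem_comap, RingHom.mem_ker, RingHom.mem_ker]
      show p.eval₂ _ _ = 0 ↔ (Psi k N p).eval₂ _ (Sum.elim x y) = 0
      rw [eval_Psi]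
    have h2 : towerIdeal ∅ (fun _ : Fin 2 => 2) (fun i => MvPolynomial.X (i0 N i)) F =
        (towerIdeal ∅ m g G).comap (Psi k N : _ →+* _) := tower_comap N G F hFG m g
    have hsurj : Function.Surjective ((Psi k N).toRingHom) := Psi_surj N
    have h3 := Ideal.comap_minimalPrimes_eq_of_surjective hsurj (towerIdeal ∅ m g G)
    rw [h1, h2]
    exact h3 ▸ ⟨_, hV.component, rfl⟩
  · intro κ
    obtain ⟨D, p, q, hp, hq, hq0, hκ⟩ := hV.into κ
    refine ⟨D, MvPolynomial.rename (rho N) p, MvPolynomial.rename (rho N) q,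
      wh_rho N a p D hp, wh_rho N a q D hq, ?_, ?_⟩
    · rw [eval_rho _ N x y]
      exact hq0
    · rw [eval_rho _ N x y, eval_rho _ N x y]
      exact hκ
  · rintro κ ⟨D, p, q, hp, hq, hq0, hκ⟩
    refine hV.algebraic κ ⟨D, Psi k N p, Psi k N q, wh_Psi N a p D hp, wh_Psi N a q D hq, ?_, ?_⟩
    · rw [eval_Psi]
      exact hq0
    · rw [eval_Psi, eval_Psi]
      exact hκ
  · refine Or.inl ⟨?_, Or.inr (Or.inr ⟨0, 1, by decide, dvd_rfl, dvd_rfl, le_rfl, le_rfl⟩)⟩
    rw [sum_w2, one_mul]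
    simp only [Fin.sum_univ_two]
    omega

end Pool.Agent.PGF.H65
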