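import Pool.Agent.Helper65_PGF.EvenAlg

/-!
# Hypersurfaces symmetric under two disjoint transpositions: algebra
-/

set_option autoImplicit false

universe u v

namespace Pool.Agent.PGF.H65

section

variable {k : Type u} [Field k]

/-- Invariance under a change of sign means even exponents. -/
theorem even_of_sign [CharZero k] {n : ℕ} (i : Fin n) (G : MvPolynomial (Fin n) k)
    (h : MvPolynomial.aeval (fun l => if l = i then -(MvPolynomial.X l : MvPolynomial (Fin n) k)
      else MvPolynomial.X l) G = G) : ∀ μ ∈ G.support, Even (μ i) := by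
  classical
  have h1 : MvPolynomial.aeval (fun l => if l = i then
      -(MvPolynomial.X l : MvPolynomial (Fin n) k) else MvPolynomial.X l) G =
      ∑ ν ∈ G.support, MvPolynomial.monomial ν ((-1) ^ ν i * G.coeff ν) := by
    conv_lhs => rw [G.as_sum]
    rw [map_sum]
    refine Finset.sum_congr rfl fun ν _ => ?_
    rw [MvPolynomial.aeval_monomial, MvPolynomial.algebraMap_eq, MvPolynomial.monomial_eq,
      Finsupp.prod_fintype _ _ (by simp), Finsupp.prod_fintype _ _ (by simp)]
    have h2 : ∀ l : Fin n, (if l = i then -(MvPolynomial.X l : MvPolynomial (Fin n) k)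
        else MvPolynomial.X l) ^ ν l = (if l = i then MvPolynomial.C ((-1) ^ ν i) else 1) *
          MvPolynomial.X l ^ ν l := by
      intro l
      by_cases hl : l = i
      · rw [if_pos hl, if_pos hl, hl, neg_pow, map_pow, map_neg, map_one]
      · rw [if_neg hl, if_neg hl, one_mul]
    rw [Finset.prod_congr rfl fun l _ => h2 l, Finset.prod_mul_distrib, Finset.prod_ite_eq',
      if_pos (Finset.mem_univ i), ← mul_assoc, ← map_mul, mul_comm (G.coeff ν)]
  intro μ hμ
  have h3 := congrArg (MvPolynomial.coeff μ) (h1.symm.trans h)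
  rw [MvPolynomial.coeff_sum, Finset.sum_eq_single μ, MvPolynomial.coeff_monomial,
    if_pos rfl] at h3
  · have h4 : (-1 : k) ^ μ i = 1 := by
      have h5 : ((-1 : k) ^ μ i - 1) * G.coeff μ = 0 := by
        rw [sub_mul, h3, one_mul, sub_self]
      rcases mul_eq_zero.1 h5 with h6 | h6
      · exact sub_eq_zero.1 h6
      · exact absurd h6 (MvPolynomial.mem_support_iff.1 hμ)
    rcases Nat.even_or_odd (μ i) with he | ho
    · exact he
    · rw [ho.neg_one_pow] at h4
      have h7 : (2 : k) = 0 := by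
        have : (1 : k) + 1 = 1 + -1 := by rw [h4]
        rw [add_neg_cancel] at this
        rw [← this]
        norm_num
      exact absurd h7 two_ne_zero
  · intro ν _ hne
    rw [MvPolynomial.coeff_monomial, if_neg hne]
  · intro hne
    exact absurd hμ hne

/-- The linear change of coordinates: `x 0, x 1 = u ± v`, `x 2, x 3 = s ± t`, in the new
coordinates `v, t, u, s, x 4, ...`. -/
noncomputable def lA (k : Type u) [Field k] (M : ℕ) (l : Fin (M + 4)) :
    MvPolynomial (Fin (M + 4)) k :=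
  if l = 0 then MvPolynomial.X 2 + MvPolynomial.X 0 else
  if l = 1 then MvPolynomial.X 2 - MvPolynomial.X 0 else
  if l = 2 then MvPolynomial.X 3 + MvPolynomial.X 1 else
  if l = 3 then MvPolynomial.X 3 - MvPolynomial.X 1 else MvPolynomial.X l

/-- The inverse change of coordinates. -/
noncomputable def lB (k : Type u) [Field k] (M : ℕ) (l : Fin (M + 4)) :
    MvPolynomial (Fin (M + 4)) k :=
  if l = 0 then MvPolynomial.C (1 / 2) * (MvPolynomial.X 0 - MvPolynomial.X 1) else
  if l = 1 then MvPolynomial.C (1 / 2) * (MvPolynomial.X 2 - MvPolynomial.X 3) else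
  if l = 2 then MvPolynomial.C (1 / 2) * (MvPolynomial.X 0 + MvPolynomial.X 1) else
  if l = 3 then MvPolynomial.C (1 / 2) * (MvPolynomial.X 2 + MvPolynomial.X 3) else
    MvPolynomial.X l

theorem ne10 (M : ℕ) : (1 : Fin (M + 4)) ≠ 0 := by
  intro h
  exact absurd (congrArg Fin.val h) (by show (1 : ℕ) ≠ 0; omega)

theorem ne20 (M : ℕ) : (2 : Fin (M + 4)) ≠ 0 := by
  intro h
  exact absurd (congrArg Fin.val h) (by show (2 : ℕ) ≠ 0; omega)

theorem ne21 (M : ℕ) : (2 : Fin (M + 4)) ≠ 1 := by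
  intro h
  exact absurd (congrArg Fin.val h) (by show (2 : ℕ) ≠ 1; omega)

theorem ne30 (M : ℕ) : (3 : Fin (M + 4)) ≠ 0 := by
  intro h
  exact absurd (congrArg Fin.val h) (by show (3 : ℕ) ≠ 0; omega)

theorem ne31 (M : ℕ) : (3 : Fin (M + 4)) ≠ 1 := by
  intro h
  exact absurd (congrArg Fin.val h) (by show (3 : ℕ) ≠ 1; omega)

theorem ne32 (M : ℕ) : (3 : Fin (M + 4)) ≠ 2 := by
  intro h
  exact absurd (congrArg Fin.val h) (by show (3 : ℕ) ≠ 2; omega)

theorem lA0 (M : ℕ) : lA k M 0 = MvPolynomial.X 2 + MvPolynomial.X 0 := by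
  rw [lA, if_pos rfl]

theorem lA1 (M : ℕ) : lA k M 1 = MvPolynomial.X 2 - MvPolynomial.X 0 := by
  rw [lA, if_neg (ne10 M), if_pos rfl]

theorem lA2 (M : ℕ) : lA k M 2 = MvPolynomial.X 3 + MvPolynomial.X 1 := by
  rw [lA, if_neg (ne20 M), if_neg (ne21 M), if_pos rfl]

theorem lA3 (M : ℕ) : lA k M 3 = MvPolynomial.X 3 - MvPolynomial.X 1 := by
  rw [lA, if_neg (ne30 M), if_neg (ne31 M), if_neg (ne32 M), if_pos rfl]

theorem lA4 (M : ℕ) (l : Fin (M + 4)) (h0 : l ≠ 0) (h1 : l ≠ 1) (h2 : l ≠ 2) (h3 : l ≠ 3) :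
    lA k M l = MvPolynomial.X l := by
  rw [lA, if_neg h0, if_neg h1, if_neg h2, if_neg h3]

theorem lB0 (M : ℕ) : lB k M 0 =
    MvPolynomial.C (1 / 2) * (MvPolynomial.X 0 - MvPolynomial.X 1) := by
  rw [lB, if_pos rfl]

theorem lB1 (M : ℕ) : lB k M 1 =
    MvPolynomial.C (1 / 2) * (MvPolynomial.X 2 - MvPolynomial.X 3) := by
  rw [lB, if_neg (ne10 M), if_pos rfl]

theorem lB2 (M : ℕ) : lB k M 2 =
    MvPolynomial.C (1 / 2) * (MvPolynomial.X 0 + MvPolynomial.X 1) := by
  rw [lB, if_neg (ne20 M), if_neg (ne21 M), if_pos rfl]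

theorem lB3 (M : ℕ) : lB k M 3 =
    MvPolynomial.C (1 / 2) * (MvPolynomial.X 2 + MvPolynomial.X 3) := by
  rw [lB, if_neg (ne30 M), if_neg (ne31 M), if_neg (ne32 M), if_pos rfl]

theorem lB4 (M : ℕ) (l : Fin (M + 4)) (h0 : l ≠ 0) (h1 : l ≠ 1) (h2 : l ≠ 2) (h3 : l ≠ 3) :
    lB k M l = MvPolynomial.X l := by
  rw [lB, if_neg h0, if_neg h1, if_neg h2, if_neg h3]

theorem half_two [CharZero k] (M : ℕ) (p : MvPolynomial (Fin (M + 4)) k) :
    MvPolynomial.C (1 / 2 : k) * (2 * p) = p := by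
  have h : (MvPolynomial.C (1 / 2 : k) : MvPolynomial (Fin (M + 4)) k) * 2 = 1 := by
    have h2 : (2 : MvPolynomial (Fin (M + 4)) k) = MvPolynomial.C 2 := by
      rw [map_ofNat]
    rw [h2, ← map_mul, one_div, inv_mul_cancel₀ two_ne_zero, map_one]
  rw [← mul_assoc, h, one_mul]

theorem aeval_half {M : ℕ} (φ : Fin (M + 4) → MvPolynomial (Fin (M + 4)) k)
    (p : MvPolynomial (Fin (M + 4)) k) :
    MvPolynomial.aeval φ (MvPolynomial.C (1 / 2 : k) * p) =
      MvPolynomial.C (1 / 2 : k) * MvPolynomial.aeval φ p := by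
  rw [map_mul, MvPolynomial.aeval_C, MvPolynomial.algebraMap_eq]

/-- `aeval lA` after `lB` is the identity. -/
theorem lA_lB [CharZero k] (M : ℕ) (l : Fin (M + 4)) :
    MvPolynomial.aeval (lA k M) (lB k M l) = MvPolynomial.X l := by
  by_cases h0 : l = 0
  · rw [h0, lB0, aeval_half, map_sub, MvPolynomial.aeval_X, MvPolynomial.aeval_X, lA0, lA1]
    have : (MvPolynomial.X 2 + MvPolynomial.X 0 - (MvPolynomial.X 2 - MvPolynomial.X 0) :
      MvPolynomial (Fin (M + 4)) k) = 2 * MvPolynomial.X 0 := by ring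
    rw [this, half_two]
  by_cases h1 : l = 1
  · rw [h1, lB1, aeval_half, map_sub, MvPolynomial.aeval_X, MvPolynomial.aeval_X, lA2, lA3]
    have : (MvPolynomial.X 3 + MvPolynomial.X 1 - (MvPolynomial.X 3 - MvPolynomial.X 1) :
      MvPolynomial (Fin (M + 4)) k) = 2 * MvPolynomial.X 1 := by ring
    rw [this, half_two]
  by_cases h2 : l = 2
  · rw [h2, lB2, aeval_half, map_add, MvPolynomial.aeval_X, MvPolynomial.aeval_X, lA0, lA1]
    have : (MvPolynomial.X 2 + MvPolynomial.X 0 + (MvPolynomial.X 2 - MvPolynomial.X 0) :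
      MvPolynomial (Fin (M + 4)) k) = 2 * MvPolynomial.X 2 := by ring
    rw [this, half_two]
  by_cases h3 : l = 3
  · rw [h3, lB3, aeval_half, map_add, MvPolynomial.aeval_X, MvPolynomial.aeval_X, lA2, lA3]
    have : (MvPolynomial.X 3 + MvPolynomial.X 1 + (MvPolynomial.X 3 - MvPolynomial.X 1) :
      MvPolynomial (Fin (M + 4)) k) = 2 * MvPolynomial.X 3 := by ring
    rw [this, half_two]
  rw [lB4 M l h0 h1 h2 h3, MvPolynomial.aeval_X, lA4 M l h0 h1 h2 h3]

/-- `aeval lB` after `lA` is the identity. -/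
theorem lB_lA [CharZero k] (M : ℕ) (l : Fin (M + 4)) :
    MvPolynomial.aeval (lB k M) (lA k M l) = MvPolynomial.X l := by
  by_cases h0 : l = 0
  · rw [h0, lA0, map_add, MvPolynomial.aeval_X, MvPolynomial.aeval_X, lB2, lB0, ← mul_add]
    have : (MvPolynomial.X 0 + MvPolynomial.X 1 + (MvPolynomial.X 0 - MvPolynomial.X 1) :
      MvPolynomial (Fin (M + 4)) k) = 2 * MvPolynomial.X 0 := by ring
    rw [this, half_two]
  by_cases h1 : l = 1
  · rw [h1, lA1, map_sub, MvPolynomial.aeval_X, MvPolynomial.aeval_X, lB2, lB0, ← mul_sub]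
    have : (MvPolynomial.X 0 + MvPolynomial.X 1 - (MvPolynomial.X 0 - MvPolynomial.X 1) :
      MvPolynomial (Fin (M + 4)) k) = 2 * MvPolynomial.X 1 := by ring
    rw [this, half_two]
  by_cases h2 : l = 2
  · rw [h2, lA2, map_add, MvPolynomial.aeval_X, MvPolynomial.aeval_X, lB3, lB1, ← mul_add]
    have : (MvPolynomial.X 2 + MvPolynomial.X 3 + (MvPolynomial.X 2 - MvPolynomial.X 3) :
      MvPolynomial (Fin (M + 4)) k) = 2 * MvPolynomial.X 2 := by ring
    rw [this, half_two]
  by_cases h3 : l = 3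
  · rw [h3, lA3, map_sub, MvPolynomial.aeval_X, MvPolynomial.aeval_X, lB3, lB1, ← mul_sub]
    have : (MvPolynomial.X 2 + MvPolynomial.X 3 - (MvPolynomial.X 2 - MvPolynomial.X 3) :
      MvPolynomial (Fin (M + 4)) k) = 2 * MvPolynomial.X 3 := by ring
    rw [this, half_two]
  rw [lA4 M l h0 h1 h2 h3, MvPolynomial.aeval_X, lB4 M l h0 h1 h2 h3]

theorem lA_hom (M : ℕ) (l : Fin (M + 4)) :
    (lA k M l).IsWeightedHomogeneous (fun _ => 1) 1 := by
  have hX : ∀ i : Fin (M + 4), (MvPolynomial.X i : MvPolynomial (Fin (M + 4)) k).IsWeightedHomogeneous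
      (fun _ => 1) 1 := fun i => MvPolynomial.isWeightedHomogeneous_X k (fun _ => 1) i
  unfold lA
  split_ifs
  · exact (hX _).add (hX _)
  · exact (hX _).sub (hX _)
  · exact (hX _).add (hX _)
  · exact (hX _).sub (hX _)
  · exact hX _

theorem lB_hom (M : ℕ) (l : Fin (M + 4)) :
    (lB k M l).IsWeightedHomogeneous (fun _ => 1) 1 := by
  have hX : ∀ i : Fin (M + 4), (MvPolynomial.X i : MvPolynomial (Fin (M + 4)) k).IsWeightedHomogeneous
      (fun _ => 1) 1 := fun i => MvPolynomial.isWeightedHomogeneous_X k (fun _ => 1) i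
  unfold lB
  split_ifs
  · exact ((hX _).sub (hX _)).C_mul _
  · exact ((hX _).sub (hX _)).C_mul _
  · exact ((hX _).add (hX _)).C_mul _
  · exact ((hX _).add (hX _)).C_mul _
  · exact hX _

theorem aeval_aeval_eq {n : ℕ} (φ ψ : Fin n → MvPolynomial (Fin n) k)
    (p : MvPolynomial (Fin n) k) :
    MvPolynomial.aeval φ (MvPolynomial.aeval ψ p) =
      MvPolynomial.aeval (fun l => MvPolynomial.aeval φ (ψ l)) p := by
  have h : (MvPolynomial.aeval φ).comp (MvPolynomial.aeval ψ) =
      MvPolynomial.aeval (R := k) (fun l => MvPolynomial.aeval φ (ψ l)) :=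
    MvPolynomial.algHom_ext fun l => by
      rw [AlgHom.comp_apply, MvPolynomial.aeval_X, MvPolynomial.aeval_X]
  exact DFunLike.congr_fun h p

theorem lA_lB_all [CharZero k] (M : ℕ) (p : MvPolynomial (Fin (M + 4)) k) :
    MvPolynomial.aeval (lA k M) (MvPolynomial.aeval (lB k M) p) = p := by
  rw [aeval_aeval_eq]
  have h : (fun l => MvPolynomial.aeval (lA k M) (lB k M l)) = MvPolynomial.X :=
    funext fun l => lA_lB M l
  rw [h, MvPolynomial.aeval_X_left, AlgHom.id_apply]

theorem lB_lA_all [CharZero k] (M : ℕ) (p : MvPolynomial (Fin (M + 4)) k) :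
    MvPolynomial.aeval (lB k M) (MvPolynomial.aeval (lA k M) p) = p := by
  rw [aeval_aeval_eq]
  have h : (fun l => MvPolynomial.aeval (lB k M) (lA k M l)) = MvPolynomial.X :=
    funext fun l => lB_lA M l
  rw [h, MvPolynomial.aeval_X_left, AlgHom.id_apply]

/-- Symmetric polynomials become even. -/
theorem even_of_symm [CharZero k] (M : ℕ) (F : MvPolynomial (Fin (M + 4)) k)
    (h01 : MvPolynomial.rename (Equiv.swap 0 1) F = F)
    (h23 : MvPolynomial.rename (Equiv.swap 2 3) F = F) :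
    ∀ μ ∈ (MvPolynomial.aeval (lA k M) F).support, Even (μ 0) ∧ Even (μ 1) := by
  have key : ∀ (i : Fin (M + 4)) (e : Equiv.Perm (Fin (M + 4))),
      MvPolynomial.rename e F = F →
      (∀ l, MvPolynomial.aeval (fun l => if l = i then
        -(MvPolynomial.X l : MvPolynomial (Fin (M + 4)) k) else MvPolynomial.X l) (lA k M l) =
          lA k M (e l)) →
      MvPolynomial.aeval (fun l => if l = i then
        -(MvPolynomial.X l : MvPolynomial (Fin (M + 4)) k) else MvPolynomial.X l)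
          (MvPolynomial.aeval (lA k M) F) = MvPolynomial.aeval (lA k M) F := by
    intro i e he hl
    rw [aeval_aeval_eq, funext hl]
    conv_rhs => rw [← he]
    rw [MvPolynomial.aeval_rename]
    rfl
  have hk0 := key 0 (Equiv.swap 0 1) h01 (by
    intro l
    by_cases h0 : l = 0
    · rw [h0, Equiv.swap_apply_left, lA0, lA1, map_add, MvPolynomial.aeval_X,
        MvPolynomial.aeval_X, if_neg (ne20 M), if_pos rfl, sub_eq_add_neg]
    by_cases h1 : l = 1
    · rw [h1, Equiv.swap_apply_right, lA0, lA1, map_sub, MvPolynomial.aeval_X,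
        MvPolynomial.aeval_X, if_neg (ne20 M), if_pos rfl, sub_neg_eq_add]
    rw [Equiv.swap_apply_of_ne_of_ne h0 h1]
    by_cases h2 : l = 2
    · rw [h2, lA2, map_add, MvPolynomial.aeval_X, MvPolynomial.aeval_X, if_neg (ne30 M),
        if_neg (ne10 M)]
    by_cases h3 : l = 3
    · rw [h3, lA3, map_sub, MvPolynomial.aeval_X, MvPolynomial.aeval_X, if_neg (ne30 M),
        if_neg (ne10 M)]
    rw [lA4 M l h0 h1 h2 h3, MvPolynomial.aeval_X, if_neg h0])
  have hk1 := key 1 (Equiv.swap 2 3) h23 (by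
    intro l
    by_cases h2 : l = 2
    · rw [h2, Equiv.swap_apply_left, lA2, lA3, map_add, MvPolynomial.aeval_X,
        MvPolynomial.aeval_X, if_neg (ne31 M), if_pos rfl, sub_eq_add_neg]
    by_cases h3 : l = 3
    · rw [h3, Equiv.swap_apply_right, lA2, lA3, map_sub, MvPolynomial.aeval_X,
        MvPolynomial.aeval_X, if_neg (ne31 M), if_pos rfl, sub_neg_eq_add]
    rw [Equiv.swap_apply_of_ne_of_ne h2 h3]
    by_cases h0 : l = 0
    · rw [h0, lA0, map_add, MvPolynomial.aeval_X, MvPolynomial.aeval_X, if_neg (ne21 M),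
        if_neg (ne10 M).symm]
    by_cases h1 : l = 1
    · rw [h1, lA1, map_sub, MvPolynomial.aeval_X, MvPolynomial.aeval_X, if_neg (ne21 M),
        if_neg (ne10 M).symm]
    rw [lA4 M l h0 h1 h2 h3, MvPolynomial.aeval_X, if_neg h1])
  intro μ hμ
  exact ⟨even_of_sign 0 _ hk0 μ hμ, even_of_sign 1 _ hk1 μ hμ⟩

end

end Pool.Agent.PGF.H65
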