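import Pool.Agent.Helper65_PGF.Even
import Pool.Agent.Helper65_PGF.SymAlg

/-!
# Hypersurfaces symmetric under two disjoint transpositions, Fermat and Dwork
-/

set_option autoImplicit false

open CategoryTheory AlgebraicGeometry

universe u v

namespace Pool.Agent.PGF.H65

/-- Polynomials in no further variables. -/
noncomputable def strip (k : Type u) [Field k] (n : ℕ) :
    MvPolynomial (Fin n ⊕ Fin 0) k →ₐ[k] MvPolynomial (Fin n) k :=
  MvPolynomial.aeval (Sum.elim MvPolynomial.X fun i => i.elim0)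

theorem rename_strip {k : Type u} [Field k] (n : ℕ) (p : MvPolynomial (Fin n ⊕ Fin 0) k) :
    MvPolynomial.rename (Sum.inl : Fin n → Fin n ⊕ Fin 0) (strip k n p) = p := by
  have h : (MvPolynomial.rename (Sum.inl : Fin n → Fin n ⊕ Fin 0)).comp (strip k n) =
      AlgHom.id k _ := by
    refine MvPolynomial.algHom_ext fun t => ?_
    rcases t with l | i
    · rw [AlgHom.comp_apply, strip, MvPolynomial.aeval_X, Sum.elim_inl, MvPolynomial.rename_X,
        AlgHom.id_apply]
    · exact i.elim0
  exact DFunLike.congr_fun h p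

theorem eval_inl {k : Type u} {K : Type v} [Field k] [Field K] (c : k →+* K) (n : ℕ)
    (x : Fin n → K) (y : Fin 0 → K) (q : MvPolynomial (Fin n) k) :
    (MvPolynomial.rename (Sum.inl : Fin n → Fin n ⊕ Fin 0) q).eval₂ c (Sum.elim x y) =
      q.eval₂ c x := by
  rw [MvPolynomial.eval₂_rename]
  rfl

theorem eval_strip {k : Type u} {K : Type v} [Field k] [Field K] (c : k →+* K) (n : ℕ)
    (x : Fin n → K) (y : Fin 0 → K) (p : MvPolynomial (Fin n ⊕ Fin 0) k) :
    p.eval₂ c (Sum.elim x y) = (strip k n p).eval₂ c x := by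
  rw [← eval_inl c n x y, rename_strip]

theorem eval_aeval {k : Type u} {K : Type v} [Field k] [Field K] (c : k →+* K) (n : ℕ)
    (x : Fin n → K) (B : Fin n → MvPolynomial (Fin n) k) (p : MvPolynomial (Fin n) k) :
    (MvPolynomial.aeval B p).eval₂ c x = p.eval₂ c fun l => (B l).eval₂ c x := by
  have h : (MvPolynomial.eval₂Hom c x).comp
      ((MvPolynomial.aeval B : MvPolynomial (Fin n) k →ₐ[k] _).toRingHom) =
      MvPolynomial.eval₂Hom c (fun l => (B l).eval₂ c x) := by
    refine MvPolynomial.ringHom_ext (fun r => ?_) fun l => ?_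
    · show (MvPolynomial.aeval B (MvPolynomial.C r)).eval₂ c x = (MvPolynomial.C r).eval₂ c _
      rw [MvPolynomial.aeval_C, MvPolynomial.algebraMap_eq, MvPolynomial.eval₂_C,
        MvPolynomial.eval₂_C]
    · show (MvPolynomial.aeval B (MvPolynomial.X l)).eval₂ c x = (MvPolynomial.X l).eval₂ c _
      rw [MvPolynomial.aeval_X, MvPolynomial.eval₂_X]
  exact DFunLike.congr_fun h p

theorem wh_inl {k : Type u} [Field k] (n : ℕ) (a : Fin 0 → ℕ) (q : MvPolynomial (Fin n) k)
    (D : ℕ) (hq : q.IsWeightedHomogeneous (fun _ => 1) D) :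
    (MvPolynomial.rename (Sum.inl : Fin n → Fin n ⊕ Fin 0) q).IsWeightedHomogeneous
      (Sum.elim (fun _ => 1) a) D := by
  have e : (MvPolynomial.rename (Sum.inl : Fin n → Fin n ⊕ Fin 0) :
      MvPolynomial (Fin n) k →ₐ[k] MvPolynomial (Fin n ⊕ Fin 0) k) =
      MvPolynomial.aeval fun t => MvPolynomial.X (Sum.inl t) :=
    MvPolynomial.algHom_ext fun t => by rw [MvPolynomial.rename_X, MvPolynomial.aeval_X]
  rw [e]
  exact isWH_aeval _ _ _ (fun t => MvPolynomial.isWeightedHomogeneous_X k
    (Sum.elim (fun _ => 1) a) (Sum.inl t)) q D hq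

theorem wh_strip {k : Type u} [Field k] (n : ℕ) (a : Fin 0 → ℕ)
    (p : MvPolynomial (Fin n ⊕ Fin 0) k) (D : ℕ)
    (hp : p.IsWeightedHomogeneous (Sum.elim (fun _ => 1) a) D) :
    (strip k n p).IsWeightedHomogeneous (fun _ => 1) D := by
  refine isWH_aeval (Sum.elim (fun _ => 1) a) _ _ ?_ p D hp
  intro t
  rcases t with l | i
  · exact MvPolynomial.isWeightedHomogeneous_X k (fun _ => 1) l
  · exact i.elim0

/-- A hypersurface `V`: `F = 0` of degree at most `M + 4` in the projective space with `M + 4`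
variables, symmetric in `x 0, x 1` and in `x 2, x 3`, dominates no proper pseudo-geometrically
hyperbolic variety of the same dimension. `x` is the generic point of (the cone over) `V`, and
`θ : k(X) → k(V)` the rational map from `V` to `X`. -/
theorem symmetric (k : Type u) [Field k] [IsAlgClosed k] [CharZero k]
    (X : Scheme.{u}) (f : X ⟶ Spec (.of k)) [IsIntegral X] [IsProper f]
    (M D : ℕ) (hD : 2 ≤ D) (hDM : D ≤ M + 4)
    (F : MvPolynomial (Fin (M + 4)) k) (hF : F.IsHomogeneous D)
    (h01 : MvPolynomial.rename (Equiv.swap 0 1) F = F)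
    (h23 : MvPolynomial.rename (Equiv.swap 2 3) F = F)
    (K : Type v) [Field K] (θ : X.functionField →+* K) (x : Fin (M + 4) → K)
    (hx : RingHom.ker (MvPolynomial.eval₂Hom (θ.comp (PGH.constants k f)) x) = Ideal.span {F})
    (hθ : ∀ κ, θ κ ∈ PGE.homFrac (θ.comp (PGH.constants k f)) (fun _ => 1) x)
    (hfin : ∀ κ ∈ PGE.homFrac (θ.comp (PGH.constants k f)) (fun _ => 1) x,
      ∃ P : Polynomial X.functionField, P ≠ 0 ∧ P.eval₂ θ κ = 0) : ¬ PGH.IsPGH k f := by
  classical
  have hq : ∀ q : MvPolynomial (Fin (M + 4)) k,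
      q.IsWeightedHomogeneous (fun _ => 1) 1 → q ≠ 0 →
        q.eval₂ (θ.comp (PGH.constants k f)) x ≠ 0 := by
    intro q hq1 hq0 h
    have h1 : q ∈ RingHom.ker (MvPolynomial.eval₂Hom (θ.comp (PGH.constants k f)) x) := h
    rw [hx, Ideal.mem_span_singleton] at h1
    obtain ⟨r, hr⟩ := h1
    have hF0 : F ≠ 0 := by
      intro h2
      rw [h2, zero_mul] at hr
      exact hq0 hr
    have hr0 : r ≠ 0 := by
      intro h2
      rw [h2, mul_zero] at hr
      exact hq0 hr
    have h3 : q.totalDegree ≤ 1 := MvPolynomial.IsHomogeneous.totalDegree_le hq1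
    rw [hr, MvPolynomial.totalDegree_mul_of_isDomain hF0 hr0, hF.totalDegree hF0] at h3
    omega
  have hxne : ∀ l, (lB k M l).eval₂ (θ.comp (PGH.constants k f)) x ≠ 0 := by
    intro l
    refine hq _ (lB_hom M l) ?_
    intro h
    have h1 := lA_lB (k := k) M l
    rw [h, map_zero] at h1
    exact MvPolynomial.X_ne_zero l h1.symm
  have hker : RingHom.ker (MvPolynomial.eval₂Hom (θ.comp (PGH.constants k f))
      (Sum.elim (fun l => (lB k M l).eval₂ (θ.comp (PGH.constants k f)) x)
        (fun i : Fin 0 => (i.elim0 : K)))) =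
      towerIdeal ∅ (fun i : Fin 0 => (i.elim0 : ℕ))
        (fun i : Fin 0 => (i.elim0 : MvPolynomial (Fin (M + 4)) k))
        (fun _ : Fin 1 => MvPolynomial.aeval (lA k M) F) := by
    refine le_antisymm ?_ ?_
    · intro p hp
      have h1 : p.eval₂ (θ.comp (PGH.constants k f))
        (Sum.elim (fun l => (lB k M l).eval₂ (θ.comp (PGH.constants k f)) x)
          (fun i : Fin 0 => (i.elim0 : K))) = 0 := hp
      rw [eval_strip, ← eval_aeval] at h1
      have h2 : MvPolynomial.aeval (lB k M) (strip k (M + 4) p) ∈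
        RingHom.ker (MvPolynomial.eval₂Hom (θ.comp (PGH.constants k f)) x) := h1
      rw [hx, Ideal.mem_span_singleton] at h2
      obtain ⟨r, hr⟩ := h2
      have h3 : strip k (M + 4) p =
          MvPolynomial.aeval (lA k M) F * MvPolynomial.aeval (lA k M) r := by
        rw [← map_mul, ← hr, lA_lB_all]
      rw [← rename_strip (M + 4) p, h3, map_mul]
      exact Ideal.mul_mem_right _ _ (Ideal.subset_span (Or.inl (Or.inr ⟨0, rfl⟩)))
    · refine Ideal.span_le.2 ?_
      rintro p ((⟨q, hq, -⟩ | ⟨j, rfl⟩) | ⟨i, rfl⟩)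
      · exact absurd hq (Set.notMem_empty _)
      · show (MvPolynomial.rename Sum.inl (MvPolynomial.aeval (lA k M) F)).eval₂
          (θ.comp (PGH.constants k f))
          (Sum.elim (fun l => (lB k M l).eval₂ (θ.comp (PGH.constants k f)) x)
            (fun i : Fin 0 => (i.elim0 : K))) = 0
        rw [eval_inl, ← eval_aeval, lB_lA_all]
        have h1 : F ∈ RingHom.ker (MvPolynomial.eval₂Hom (θ.comp (PGH.constants k f)) x) := by
          rw [hx]
          exact Ideal.mem_span_singleton_self F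
        exact h1
      · exact i.elim0
  refine even_two k X f (M + 2) 1 (by omega) (fun _ => D)
    (fun _ => MvPolynomial.aeval (lA k M) F) (fun _ => isWH_aeval _ _ _ (lA_hom M) F D hF)
    (fun _ => even_of_symm M F h01 h23) (by simpa using hDM) K θ
    (fun l => (lB k M l).eval₂ (θ.comp (PGH.constants k f)) x)
    (fun i => i.elim0) (fun i => i.elim0) (fun i => i.elim0) (fun i => i.elim0)
    ⟨hxne, fun i => i.elim0, ?_, ?_, ?_⟩
  · have hp : (RingHom.ker (MvPolynomial.eval₂Hom (θ.comp (PGH.constants k f))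
      (Sum.elim (fun l => (lB k M l).eval₂ (θ.comp (PGH.constants k f)) x)
        (fun i : Fin 0 => (i.elim0 : K))))).IsPrime := RingHom.ker_isPrime _
    show RingHom.ker (MvPolynomial.eval₂Hom (θ.comp (PGH.constants k f))
      (Sum.elim (fun l => (lB k M l).eval₂ (θ.comp (PGH.constants k f)) x)
        (fun i : Fin 0 => (i.elim0 : K)))) ∈ (towerIdeal ∅ (fun i : Fin 0 => (i.elim0 : ℕ))
        (fun i : Fin 0 => (i.elim0 : MvPolynomial (Fin (M + 4)) k))
        (fun _ : Fin 1 => MvPolynomial.aeval (lA k M) F)).minimalPrimes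
    rw [← hker, Ideal.minimalPrimes_eq_subsingleton_self]
    exact rfl
  · intro κ
    obtain ⟨D', p, q, hp, hq', hq0, hκ⟩ := hθ κ
    refine ⟨D', MvPolynomial.rename Sum.inl (MvPolynomial.aeval (lA k M) p),
      MvPolynomial.rename Sum.inl (MvPolynomial.aeval (lA k M) q),
      wh_inl _ _ _ _ (isWH_aeval _ _ _ (lA_hom M) p D' hp),
      wh_inl _ _ _ _ (isWH_aeval _ _ _ (lA_hom M) q D' hq'), ?_, ?_⟩
    · have h1 := eval_inl (θ.comp (PGH.constants k f)) (M + 4)
        (fun l => (lB k M l).eval₂ (θ.comp (PGH.constants k f)) x) (fun i => (i.elim0 : K))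
        (MvPolynomial.aeval (lA k M) q)
      rw [← eval_aeval, lB_lA_all] at h1
      intro h2
      exact hq0 (h1.symm.trans h2)
    · have h1 := eval_inl (θ.comp (PGH.constants k f)) (M + 4)
        (fun l => (lB k M l).eval₂ (θ.comp (PGH.constants k f)) x) (fun i => (i.elim0 : K))
        (MvPolynomial.aeval (lA k M) q)
      have h2 := eval_inl (θ.comp (PGH.constants k f)) (M + 4)
        (fun l => (lB k M l).eval₂ (θ.comp (PGH.constants k f)) x) (fun i => (i.elim0 : K))
        (MvPolynomial.aeval (lA k M) p)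
      rw [← eval_aeval, lB_lA_all] at h1 h2
      exact hκ.trans (congrArg₂ (fun a b => a / b) h2.symm h1.symm)
  · rintro κ ⟨D', p, q, hp, hq', hq0, hκ⟩
    have h1 := eval_strip (θ.comp (PGH.constants k f)) (M + 4)
      (fun l => (lB k M l).eval₂ (θ.comp (PGH.constants k f)) x) (fun i => (i.elim0 : K)) q
    have h2 := eval_strip (θ.comp (PGH.constants k f)) (M + 4)
      (fun l => (lB k M l).eval₂ (θ.comp (PGH.constants k f)) x) (fun i => (i.elim0 : K)) p
    rw [← eval_aeval] at h1 h2
    refine hfin κ ⟨D', MvPolynomial.aeval (lB k M) (strip k (M + 4) p),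
      MvPolynomial.aeval (lB k M) (strip k (M + 4) q),
      isWH_aeval _ _ _ (lB_hom M) _ D' (wh_strip _ _ p D' hp),
      isWH_aeval _ _ _ (lB_hom M) _ D' (wh_strip _ _ q D' hq'), ?_, ?_⟩
    · intro h3
      exact hq0 (h1.trans h3)
    · exact hκ.trans (congrArg₂ (fun a b => a / b) h2 h1)

/-- The equation of the Dwork pencil is invariant under all permutations of the variables. -/
theorem rename_dwork {k : Type u} [Field k] (n D : ℕ) (ψ : k) (e : Equiv.Perm (Fin n)) :
    MvPolynomial.rename e (∑ l, MvPolynomial.X l ^ D +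
      MvPolynomial.C ψ * ∏ l, (MvPolynomial.X l : MvPolynomial (Fin n) k)) =
      ∑ l, MvPolynomial.X l ^ D +
        MvPolynomial.C ψ * ∏ l, (MvPolynomial.X l : MvPolynomial (Fin n) k) := by
  rw [map_add, map_sum, map_mul, map_prod, MvPolynomial.rename_C]
  have e1 : ∑ l, MvPolynomial.rename e ((MvPolynomial.X l : MvPolynomial (Fin n) k) ^ D) =
      ∑ l, MvPolynomial.X l ^ D := by
    rw [← Equiv.sum_comp e (fun l => (MvPolynomial.X l : MvPolynomial (Fin n) k) ^ D)]
    refine Finset.sum_congr rfl fun l _ => ?_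
    rw [map_pow, MvPolynomial.rename_X]
  have e2 : ∏ l, MvPolynomial.rename e (MvPolynomial.X l : MvPolynomial (Fin n) k) =
      ∏ l, MvPolynomial.X l := by
    rw [← Equiv.prod_comp e (fun l => (MvPolynomial.X l : MvPolynomial (Fin n) k))]
    refine Finset.prod_congr rfl fun l _ => ?_
    rw [MvPolynomial.rename_X]
  rw [e1, e2]

theorem hom_dwork {k : Type u} [Field k] (n : ℕ) (ψ : k) :
    (∑ l, MvPolynomial.X l ^ n +
      MvPolynomial.C ψ * ∏ l, (MvPolynomial.X l : MvPolynomial (Fin n) k)).IsHomogeneous n := by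
  refine MvPolynomial.IsHomogeneous.add ?_ ?_
  · refine MvPolynomial.IsHomogeneous.sum _ _ _ fun l _ => ?_
    have h1 := (MvPolynomial.isHomogeneous_X k l).pow n
    rw [one_mul] at h1
    exact h1
  · have h1 := MvPolynomial.IsHomogeneous.prod Finset.univ
      (fun l : Fin n => (MvPolynomial.X l : MvPolynomial (Fin n) k)) (fun _ => 1)
      (fun l _ => MvPolynomial.isHomogeneous_X k l)
    have h2 : ∑ _l : Fin n, 1 = n := by simp
    rw [h2] at h1
    have h3 := (MvPolynomial.isHomogeneous_C (Fin n) ψ).mul h1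
    rw [zero_add] at h3
    exact h3

/-- The Dwork pencil (`ψ = 0`: the Fermat hypersurface) in the projective space with `M + 4`
variables: the quartic surface, the quintic threefold, ... dominates no proper
pseudo-geometrically hyperbolic variety of the same dimension. -/
theorem dwork (k : Type u) [Field k] [IsAlgClosed k] [CharZero k]
    (X : Scheme.{u}) (f : X ⟶ Spec (.of k)) [IsIntegral X] [IsProper f]
    (M : ℕ) (ψ : k) (K : Type v) [Field K] (θ : X.functionField →+* K) (x : Fin (M + 4) → K)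
    (hx : RingHom.ker (MvPolynomial.eval₂Hom (θ.comp (PGH.constants k f)) x) = Ideal.span
      {∑ l, MvPolynomial.X l ^ (M + 4) +
        MvPolynomial.C ψ * ∏ l, (MvPolynomial.X l : MvPolynomial (Fin (M + 4)) k)})
    (hθ : ∀ κ, θ κ ∈ PGE.homFrac (θ.comp (PGH.constants k f)) (fun _ => 1) x)
    (hfin : ∀ κ ∈ PGE.homFrac (θ.comp (PGH.constants k f)) (fun _ => 1) x,
      ∃ P : Polynomial X.functionField, P ≠ 0 ∧ P.eval₂ θ κ = 0) : ¬ PGH.IsPGH k f :=
  symmetric k X f M (M + 4) (by omega) le_rfl _ (hom_dwork (M + 4) ψ)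
    (rename_dwork (M + 4) (M + 4) ψ _) (rename_dwork (M + 4) (M + 4) ψ _) K θ x hx hθ hfin

end Pool.Agent.PGF.H65
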